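import Pool.Agent.H10.FEX.Stmts

set_option autoImplicit false

namespace Pool.FEX

open Finset Pool.Agent.H98.ABCR Pool.SHA Pool.FEW

/-- solutions of a linear congruence in an interval -/
lemma lo2_count (M Q r B : ℕ) (hc : Nat.Coprime M Q) :
    (((range B).filter fun i => M ∣ r + Q * i).card : ℝ) ≤ (B : ℝ) / M + 1 := by
  have h1 : ((range B).filter fun i => M ∣ r + Q * i).card ≤ B / M + 1 := by
    rw [← card_range (B / M + 1)]
    refine card_le_card_of_injOn (fun i => i / M) ?_ ?_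
    · intro i hi
      have h2 := mem_range.1 (mem_filter.1 hi).1
      rw [mem_coe, mem_range, Nat.lt_succ_iff]
      exact Nat.div_le_div_right h2.le
    · intro i hi i' hi' h
      have h2 := (mem_filter.1 (mem_coe.1 hi)).2
      have h3 := (mem_filter.1 (mem_coe.1 hi')).2
      have h4 : r + Q * i ≡ r + Q * i' [MOD M] :=
        ((Nat.modEq_zero_iff_dvd).2 h2).trans ((Nat.modEq_zero_iff_dvd).2 h3).symm
      have h5 : Q * i ≡ Q * i' [MOD M] := Nat.ModEq.add_left_cancel' r h4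
      have h6 : i ≡ i' [MOD M] := Nat.ModEq.cancel_left_of_coprime hc h5
      have h7 : i % M = i' % M := h6
      have h8 : i / M = i' / M := h
      rw [← Nat.div_add_mod i M, ← Nat.div_add_mod i' M, h7, h8]
  calc (((range B).filter fun i => M ∣ r + Q * i).card : ℝ) ≤ ((B / M + 1 : ℕ) : ℝ) := by
        exact_mod_cast h1
    _ ≤ (B : ℝ) / M + 1 := by
        push_cast
        have : ((B / M : ℕ) : ℝ) ≤ (B : ℝ) / M := Nat.cast_div_le
        linarith

lemma lo2_sum (N : ℕ) : ∑ n ∈ Icc 7 N, (1 : ℝ) / (n : ℝ) ^ 2 ≤ 1 / 6 := by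
  have h3 : 7 ≤ N → ∑ n ∈ Icc 7 N, (1 : ℝ) / (n : ℝ) ^ 2 ≤ 1 / 6 - 1 / (N : ℝ) := by
    intro hN
    induction N, hN using Nat.le_induction with
    | base => norm_num
    | succ N hN ih =>
      rw [sum_Icc_succ_top (by omega)]
      have hN0 : (0 : ℝ) < N := by exact_mod_cast (by omega : 0 < N)
      have : (1 : ℝ) / ((N + 1 : ℕ) : ℝ) ^ 2 ≤ 1 / (N : ℝ) - 1 / ((N + 1 : ℕ) : ℝ) := by
        push_cast
        rw [div_sub_div _ _ hN0.ne' (by positivity), div_le_div_iff₀ (by positivity) (by positivity)]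
        nlinarith
      linarith
  rcases Nat.lt_or_ge N 7 with h | h
  · rw [Icc_eq_empty (by omega)]; norm_num
  · have := h3 h
    have h4 : (0 : ℝ) ≤ 1 / (N : ℝ) := by positivity
    linarith

lemma lo2_sum1 (N : ℕ) : ∑ n ∈ Icc 7 N, (1 : ℝ) / n ≤ Real.sqrt N := by
  have h1 := Finset.sum_mul_sq_le_sq_mul_sq (Icc 7 N) (fun _ => (1 : ℝ)) (fun n => (1 : ℝ) / n)
  have h2 : ∑ n ∈ Icc 7 N, ((1 : ℝ)) ^ 2 ≤ N := by
    rw [sum_const, nsmul_eq_mul, Nat.card_Icc]
    have : ((N + 1 - 7 : ℕ) : ℝ) ≤ N := by exact_mod_cast (by omega)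
    linarith
  have h3 : ∑ n ∈ Icc 7 N, ((1 : ℝ) / n) ^ 2 ≤ 1 / 6 := by
    refine le_trans (le_of_eq ?_) (lo2_sum N)
    refine sum_congr rfl fun n _ => ?_
    rw [div_pow, one_pow]
  have h4 : (0 : ℝ) ≤ ∑ n ∈ Icc 7 N, ((1 : ℝ) / n) ^ 2 := sum_nonneg fun n _ => by positivity
  have h5 : (0 : ℝ) ≤ N := Nat.cast_nonneg N
  apply Real.le_sqrt_of_sq_le
  simp only [one_mul] at h1
  have h6 := mul_le_mul h2 h3 h4 h5
  linarith

open Classical in
/-- squares of primes in an arithmetic progression -/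
lemma lo2_sq (r A K : ℕ) (hr : 0 < r) (hK : ∀ i < A, r + 900 * i ≤ K) :
    (((range A).filter fun i => ∃ p : ℕ, p.Prime ∧ 7 ≤ p ∧ p ^ 2 ∣ r + 900 * i).card : ℝ) ≤
      A / 6 + Real.sqrt K := by
  have hcov : (range A).filter (fun i => ∃ p : ℕ, p.Prime ∧ 7 ≤ p ∧ p ^ 2 ∣ r + 900 * i) ⊆
      ((Icc 7 (Nat.sqrt K)).filter Nat.Prime).biUnion fun p =>
        (range A).filter fun i => p ^ 2 ∣ r + 900 * i := by
    intro i hi
    obtain ⟨h1, p, h2, h3, h4⟩ := mem_filter.1 hi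
    rw [mem_biUnion]
    refine ⟨p, mem_filter.2 ⟨mem_Icc.2 ⟨h3, ?_⟩, h2⟩, mem_filter.2 ⟨h1, h4⟩⟩
    rw [Nat.le_sqrt']
    exact (Nat.le_of_dvd (by omega) h4).trans (hK i (mem_range.1 h1))
  calc (((range A).filter fun i => ∃ p : ℕ, p.Prime ∧ 7 ≤ p ∧ p ^ 2 ∣ r + 900 * i).card : ℝ)
      ≤ ((((Icc 7 (Nat.sqrt K)).filter Nat.Prime).biUnion fun p =>
        (range A).filter fun i => p ^ 2 ∣ r + 900 * i).card : ℝ) := by
        exact_mod_cast card_le_card hcov
    _ ≤ ∑ p ∈ (Icc 7 (Nat.sqrt K)).filter Nat.Prime,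
        (((range A).filter fun i => p ^ 2 ∣ r + 900 * i).card : ℝ) := by
        exact_mod_cast card_biUnion_le
    _ ≤ ∑ p ∈ (Icc 7 (Nat.sqrt K)).filter Nat.Prime, ((A : ℝ) * (1 / (p : ℝ) ^ 2) + 1) := by
        refine sum_le_sum fun p hp => ?_
        obtain ⟨h1, h2⟩ := mem_filter.1 hp
        have h3 := (mem_Icc.1 h1).1
        have h4 := lo2_count (p ^ 2) 900 r A (Nat.Coprime.pow_left 2 (by
          rw [Nat.Prime.coprime_iff_not_dvd h2]
          intro h5
          rw [show 900 = 2 ^ 2 * 3 ^ 2 * 5 ^ 2 by norm_num] at h5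
          rcases (Nat.Prime.dvd_mul h2).1 h5 with h6 | h6
          · rcases (Nat.Prime.dvd_mul h2).1 h6 with h7 | h7
            · have := Nat.le_of_dvd (by norm_num) (h2.dvd_of_dvd_pow h7); omega
            · have := Nat.le_of_dvd (by norm_num) (h2.dvd_of_dvd_pow h7); omega
          · have := Nat.le_of_dvd (by norm_num) (h2.dvd_of_dvd_pow h6); omega))
        push_cast at h4
        rw [mul_one_div]
        exact h4
    _ ≤ ∑ p ∈ Icc 7 (Nat.sqrt K), ((A : ℝ) * (1 / (p : ℝ) ^ 2) + 1) :=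
        sum_le_sum_of_subset_of_nonneg (filter_subset _ _) fun p _ _ => by positivity
    _ = (A : ℝ) * ∑ p ∈ Icc 7 (Nat.sqrt K), (1 / (p : ℝ) ^ 2) + ((Nat.sqrt K + 1 - 7 : ℕ) : ℝ) := by
        rw [sum_add_distrib, ← mul_sum, sum_const, nsmul_eq_mul, mul_one, Nat.card_Icc]
    _ ≤ A * (1 / 6) + Real.sqrt K := by
        have h1 := mul_le_mul_of_nonneg_left (lo2_sum (Nat.sqrt K)) (Nat.cast_nonneg (α := ℝ) A)
        have h2 : ((Nat.sqrt K + 1 - 7 : ℕ) : ℝ) ≤ (Nat.sqrt K : ℕ) := by exact_mod_cast (by omega)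
        have h3 : ((Nat.sqrt K : ℕ) : ℝ) ≤ Real.sqrt K := by
          apply Real.le_sqrt_of_sq_le
          exact_mod_cast Nat.sqrt_le' K
        linarith
    _ = A / 6 + Real.sqrt K := by ring

open Classical in
/-- common prime factors -/
lemma lo2_gcd (A B : ℕ) :
    (((range A ×ˢ range B).filter fun t : ℕ × ℕ => ∃ p : ℕ, p.Prime ∧ 7 ≤ p ∧
      p ∣ 1 + 900 * t.1 ∧ p ∣ 1 + 900 * t.2).card : ℝ) ≤
      A * B / 6 + (A + B) * Real.sqrt (900 * A) + 900 * A := by
  have hcov : (range A ×ˢ range B).filter (fun t : ℕ × ℕ => ∃ p : ℕ, p.Prime ∧ 7 ≤ p ∧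
      p ∣ 1 + 900 * t.1 ∧ p ∣ 1 + 900 * t.2) ⊆
      ((Icc 7 (900 * A)).filter Nat.Prime).biUnion fun p =>
        ((range A).filter fun i => p ∣ 1 + 900 * i) ×ˢ
          ((range B).filter fun i => p ∣ 1 + 900 * i) := by
    intro t ht
    obtain ⟨h1, p, h2, h3, h4, h5⟩ := mem_filter.1 ht
    rw [mem_product] at h1
    rw [mem_biUnion]
    refine ⟨p, mem_filter.2 ⟨mem_Icc.2 ⟨h3, ?_⟩, h2⟩, mem_product.2
      ⟨mem_filter.2 ⟨h1.1, h4⟩, mem_filter.2 ⟨h1.2, h5⟩⟩⟩
    have h6 := Nat.le_of_dvd (by omega) h4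
    have h7 := mem_range.1 h1.1
    omega
  have hcop : ∀ p : ℕ, p.Prime → 7 ≤ p → Nat.Coprime p 900 := by
    intro p h2 h3
    rw [Nat.Prime.coprime_iff_not_dvd h2]
    intro h5
    rw [show 900 = 2 ^ 2 * 3 ^ 2 * 5 ^ 2 by norm_num] at h5
    rcases (Nat.Prime.dvd_mul h2).1 h5 with h6 | h6
    · rcases (Nat.Prime.dvd_mul h2).1 h6 with h7 | h7
      · have := Nat.le_of_dvd (by norm_num) (h2.dvd_of_dvd_pow h7); omega
      · have := Nat.le_of_dvd (by norm_num) (h2.dvd_of_dvd_pow h7); omega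
    · have := Nat.le_of_dvd (by norm_num) (h2.dvd_of_dvd_pow h6); omega
  have hAB : (0 : ℝ) ≤ (A : ℝ) * B := by positivity
  calc (((range A ×ˢ range B).filter fun t : ℕ × ℕ => ∃ p : ℕ, p.Prime ∧ 7 ≤ p ∧
      p ∣ 1 + 900 * t.1 ∧ p ∣ 1 + 900 * t.2).card : ℝ)
      ≤ ((((Icc 7 (900 * A)).filter Nat.Prime).biUnion fun p =>
        ((range A).filter fun i => p ∣ 1 + 900 * i) ×ˢ
          ((range B).filter fun i => p ∣ 1 + 900 * i)).card : ℝ) := by
        exact_mod_cast card_le_card hcov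
    _ ≤ ∑ p ∈ (Icc 7 (900 * A)).filter Nat.Prime, ((((range A).filter fun i =>
          p ∣ 1 + 900 * i) ×ˢ ((range B).filter fun i => p ∣ 1 + 900 * i)).card : ℝ) := by
        exact_mod_cast card_biUnion_le
    _ ≤ ∑ p ∈ (Icc 7 (900 * A)).filter Nat.Prime,
        ((A : ℝ) * B * (1 / (p : ℝ) ^ 2) + (A + B) * (1 / (p : ℝ)) + 1) := by
        refine sum_le_sum fun p hp => ?_
        obtain ⟨h1, h2⟩ := mem_filter.1 hp
        have h3 := (mem_Icc.1 h1).1
        have h4 := lo2_count p 900 1 A (hcop p h2 h3)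
        have h5 := lo2_count p 900 1 B (hcop p h2 h3)
        rw [card_product, Nat.cast_mul]
        have hp0 : (0 : ℝ) < p := by exact_mod_cast h2.pos
        calc _ ≤ ((A : ℝ) / p + 1) * ((B : ℝ) / p + 1) :=
              mul_le_mul h4 h5 (Nat.cast_nonneg _) (by positivity)
          _ = (A : ℝ) * B * (1 / (p : ℝ) ^ 2) + (A + B) * (1 / (p : ℝ)) + 1 := by
              field_simp
              ring
    _ ≤ ∑ p ∈ Icc 7 (900 * A),
        ((A : ℝ) * B * (1 / (p : ℝ) ^ 2) + (A + B) * (1 / (p : ℝ)) + 1) :=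
        sum_le_sum_of_subset_of_nonneg (filter_subset _ _) fun p _ _ => by positivity
    _ = (A : ℝ) * B * ∑ p ∈ Icc 7 (900 * A), (1 / (p : ℝ) ^ 2) +
        (A + B) * ∑ p ∈ Icc 7 (900 * A), (1 / (p : ℝ)) + ((900 * A + 1 - 7 : ℕ) : ℝ) := by
        rw [sum_add_distrib, sum_add_distrib, ← mul_sum, ← mul_sum, sum_const, nsmul_eq_mul,
          mul_one, Nat.card_Icc]
    _ ≤ (A : ℝ) * B * (1 / 6) + (A + B) * Real.sqrt (900 * A) + 900 * A := by
        have h1 := mul_le_mul_of_nonneg_left (lo2_sum (900 * A)) hAB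
        have h2 := mul_le_mul_of_nonneg_left (lo2_sum1 (900 * A))
          (by positivity : (0 : ℝ) ≤ (A : ℝ) + B)
        have h3 : ((900 * A + 1 - 7 : ℕ) : ℝ) ≤ 900 * A := by exact_mod_cast (by omega)
        push_cast at h2
        linarith
    _ = _ := by ring

/-- the conditions at `2`, `3`, `5` and at the other primes -/
lemma lo2_sqf (r n : ℕ) (hn : n = r + 900 * ((n - r) / 900)) (hr : r = 1 ∨ r = 2)
    (h : ¬ ∃ p : ℕ, p.Prime ∧ 7 ≤ p ∧ p ^ 2 ∣ n) : Squarefree n := by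
  rw [Nat.squarefree_iff_prime_squarefree]
  intro p hp hd
  rcases Nat.lt_or_ge p 7 with h7 | h7
  · have h1 : p = 2 ∨ p = 3 ∨ p = 5 := by
      interval_cases p
      · exact absurd hp Nat.not_prime_zero
      · exact absurd hp Nat.not_prime_one
      · left; rfl
      · right; left; rfl
      · exact absurd hp (by norm_num)
      · right; right; rfl
      · exact absurd hp (by norm_num)
    rcases h1 with rfl | rfl | rfl <;> omega
  · exact h ⟨p, hp, h7, by rw [sq]; exact hd⟩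

open Classical in
/-- the good pairs of a box: a lower bound for their number by the numbers of bad pairs -/
lemma lo2_box (A B : ℕ) :
    (A : ℝ) * B - ((((range A).filter fun i => ∃ p : ℕ, p.Prime ∧ 7 ≤ p ∧
        p ^ 2 ∣ 1 + 900 * i).card : ℝ) * B +
      A * (B / 6 + Real.sqrt (900 * B : ℕ)) + A * (B / 6 + Real.sqrt (900 * (A + B) : ℕ)) +
      (((range A ×ˢ range B).filter fun t : ℕ × ℕ => ∃ p : ℕ, p.Prime ∧ 7 ≤ p ∧
        p ∣ 1 + 900 * t.1 ∧ p ∣ 1 + 900 * t.2).card : ℝ)) ≤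
      (((range A ×ˢ range B).filter fun t : ℕ × ℕ =>
        Squarefree (nn (1 + 900 * t.1, 1 + 900 * t.2)) ∧
          IsTri (1 + 900 * t.1, 1 + 900 * t.2)).card : ℝ) := by
  set G := (range A ×ˢ range B).filter fun t : ℕ × ℕ =>
        Squarefree (nn (1 + 900 * t.1, 1 + 900 * t.2)) ∧
          IsTri (1 + 900 * t.1, 1 + 900 * t.2) with hG
  set S1 := (range A).filter fun i => ∃ p : ℕ, p.Prime ∧ 7 ≤ p ∧ p ^ 2 ∣ 1 + 900 * i with hS1
  set S2 := (range B).filter fun i => ∃ p : ℕ, p.Prime ∧ 7 ≤ p ∧ p ^ 2 ∣ 1 + 900 * i with hS2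
  set S4 := (range A ×ˢ range B).filter fun t : ℕ × ℕ => ∃ p : ℕ, p.Prime ∧ 7 ≤ p ∧
        p ∣ 1 + 900 * t.1 ∧ p ∣ 1 + 900 * t.2 with hS4
  set S3 : ℕ → Finset ℕ := fun i => (range B).filter fun j => ∃ p : ℕ, p.Prime ∧ 7 ≤ p ∧
    p ^ 2 ∣ (2 + 900 * i) + 900 * j with hS3
  have hcov : range A ×ˢ range B ⊆ G ∪ (S1 ×ˢ range B ∪ (range A ×ˢ S2 ∪
      ((range A).sigma S3).image (fun s => (s.1, s.2)) ∪ S4)) := by
    intro t ht
    have ht' := mem_product.1 ht
    by_cases c1 : t.1 ∈ S1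
    · exact mem_union_right _ (mem_union_left _ (mem_product.2 ⟨c1, ht'.2⟩))
    by_cases c2 : t.2 ∈ S2
    · exact mem_union_right _ (mem_union_right _ (mem_union_left _ (mem_union_left _
        (mem_product.2 ⟨ht'.1, c2⟩))))
    by_cases c3 : t.2 ∈ S3 t.1
    · refine mem_union_right _ (mem_union_right _ (mem_union_left _ (mem_union_right _ ?_)))
      rw [mem_image]
      exact ⟨⟨t.1, t.2⟩, mem_sigma.2 ⟨ht'.1, c3⟩, rfl⟩
    by_cases c4 : t ∈ S4
    · exact mem_union_right _ (mem_union_right _ (mem_union_right _ c4))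
    refine mem_union_left _ (mem_filter.2 ⟨ht, ?_⟩)
    have d1 : ¬ ∃ p : ℕ, p.Prime ∧ 7 ≤ p ∧ p ^ 2 ∣ 1 + 900 * t.1 := fun h =>
      c1 (mem_filter.2 ⟨ht'.1, h⟩)
    have d2 : ¬ ∃ p : ℕ, p.Prime ∧ 7 ≤ p ∧ p ^ 2 ∣ 1 + 900 * t.2 := fun h =>
      c2 (mem_filter.2 ⟨ht'.2, h⟩)
    have d3 : ¬ ∃ p : ℕ, p.Prime ∧ 7 ≤ p ∧ p ^ 2 ∣ (2 + 900 * t.1) + 900 * t.2 := fun h =>
      c3 (mem_filter.2 ⟨ht'.2, h⟩)
    have d4 : ¬ ∃ p : ℕ, p.Prime ∧ 7 ≤ p ∧ p ∣ 1 + 900 * t.1 ∧ p ∣ 1 + 900 * t.2 := fun h =>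
      c4 (mem_filter.2 ⟨ht, h⟩)
    have f1 : Squarefree (1 + 900 * t.1) := lo2_sqf 1 _ (by omega) (Or.inl rfl) d1
    have f2 : Squarefree (1 + 900 * t.2) := lo2_sqf 1 _ (by omega) (Or.inl rfl) d2
    have f3 : Squarefree ((2 + 900 * t.1) + 900 * t.2) := lo2_sqf 2 _ (by omega) (Or.inr rfl) d3
    have f4 : Nat.Coprime (1 + 900 * t.1) (1 + 900 * t.2) := by
      rw [Nat.coprime_iff_gcd_eq_one]
      by_contra hne
      obtain ⟨p, hp, hpd⟩ := Nat.exists_prime_and_dvd hne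
      have g1 := hpd.trans (Nat.gcd_dvd_left _ _)
      have g2 := hpd.trans (Nat.gcd_dvd_right _ _)
      rcases Nat.lt_or_ge p 7 with h7 | h7
      · have h1 : p = 2 ∨ p = 3 ∨ p = 5 := by
          interval_cases p
          · exact absurd hp Nat.not_prime_zero
          · exact absurd hp Nat.not_prime_one
          · left; rfl
          · right; left; rfl
          · exact absurd hp (by norm_num)
          · right; right; rfl
          · exact absurd hp (by norm_num)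
        rcases h1 with rfl | rfl | rfl <;> omega
      · exact d4 ⟨p, hp, h7, g1, g2⟩
    refine ⟨?_, by show 0 < 1 + 900 * t.1; omega, by show 0 < 1 + 900 * t.2; omega, f4⟩
    have f5 : (1 + 900 * t.1) + (1 + 900 * t.2) = (2 + 900 * t.1) + 900 * t.2 := by ring
    show Squarefree ((1 + 900 * t.1) * (1 + 900 * t.2) * ((1 + 900 * t.1) + (1 + 900 * t.2)))
    rw [Nat.squarefree_mul_iff, Nat.squarefree_mul_iff]
    refine ⟨?_, ⟨f4, f1, f2⟩, by rw [f5]; exact f3⟩
    rw [Nat.coprime_mul_iff_left]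
    constructor
    · rw [Nat.coprime_self_add_right]
      exact f4
    · rw [Nat.coprime_add_self_right]
      exact f4.symm
  have hS3c : ∀ i ∈ range A, ((S3 i).card : ℝ) ≤ B / 6 + Real.sqrt (900 * (A + B) : ℕ) := by
    intro i hi
    refine lo2_sq (2 + 900 * i) B (900 * (A + B)) (by omega) ?_
    intro j hj
    have := mem_range.1 hi
    omega
  have hS2c : (S2.card : ℝ) ≤ B / 6 + Real.sqrt (900 * B : ℕ) :=
    lo2_sq 1 B (900 * B) (by omega) (fun j hj => by omega)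
  have e1 := card_le_card hcov
  have e2 := card_union_le G (S1 ×ˢ range B ∪ (range A ×ˢ S2 ∪
      ((range A).sigma S3).image (fun s => (s.1, s.2)) ∪ S4))
  have e3 := card_union_le (S1 ×ˢ range B) (range A ×ˢ S2 ∪
      ((range A).sigma S3).image (fun s => (s.1, s.2)) ∪ S4)
  have e4 := card_union_le (range A ×ˢ S2 ∪
      ((range A).sigma S3).image (fun s => (s.1, s.2))) S4
  have e5 := card_union_le (range A ×ˢ S2) (((range A).sigma S3).image (fun s => (s.1, s.2)))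
  have e6 := card_image_le (s := (range A).sigma S3) (f := fun s => (s.1, s.2))
  rw [card_sigma] at e6
  rw [card_product, card_range, card_range] at e1
  rw [card_product, card_range] at e3
  rw [card_product, card_range] at e5
  have e7 : ((∑ i ∈ range A, (S3 i).card : ℕ) : ℝ) ≤
      A * (B / 6 + Real.sqrt (900 * (A + B) : ℕ)) := by
    push_cast
    refine (sum_le_sum hS3c).trans (le_of_eq ?_)
    rw [sum_const, card_range, nsmul_eq_mul]
    push_cast
    rfl
  have e8 : (A : ℝ) * S2.card ≤ A * (B / 6 + Real.sqrt (900 * B : ℕ)) :=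
    mul_le_mul_of_nonneg_left hS2c (Nat.cast_nonneg _)
  have e9 : A * B ≤ G.card + (S1.card * B + ((A * S2.card + ∑ i ∈ range A, (S3 i).card) +
      S4.card)) := by omega
  have e10 : (A : ℝ) * B ≤ G.card + (S1.card * B + ((A * S2.card +
      ((∑ i ∈ range A, (S3 i).card : ℕ) : ℝ)) + S4.card)) := by exact_mod_cast e9
  linarith

open Classical in
/-- many good pairs in a large box -/
lemma lo2_large (A B : ℕ) (hA : 9000000 ≤ A) (hAB : A ≤ B) : (A : ℝ) * B / 4 ≤
    (((range A ×ˢ range B).filter fun t : ℕ × ℕ =>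
      Squarefree (nn (1 + 900 * t.1, 1 + 900 * t.2)) ∧
        IsTri (1 + 900 * t.1, 1 + 900 * t.2)).card : ℝ) := by
  refine le_trans ?_ (lo2_box A B)
  have hA' : (9000000 : ℝ) ≤ A := by exact_mod_cast hA
  have hB' : (A : ℝ) ≤ B := by exact_mod_cast hAB
  have s1 : Real.sqrt (900 * A : ℕ) ≤ A / 100 := by
    rw [Real.sqrt_le_left (by positivity)]
    push_cast
    nlinarith
  have s2 : Real.sqrt (900 * B : ℕ) ≤ B / 100 := by
    rw [Real.sqrt_le_left (by positivity)]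
    push_cast
    nlinarith
  have s3 : Real.sqrt (900 * (A + B) : ℕ) ≤ B / 50 := by
    rw [Real.sqrt_le_left (by positivity)]
    push_cast
    nlinarith
  have s1' : Real.sqrt (900 * (A : ℝ)) ≤ A / 100 := by
    have := s1; push_cast at this; exact this
  have h1 := lo2_sq 1 A (900 * A) (by omega) (fun j hj => by omega)
  have h4 := lo2_gcd A B
  have g1 := mul_le_mul_of_nonneg_right (h1.trans (add_le_add_right s1 _))
    (Nat.cast_nonneg (α := ℝ) B)
  have g2 := mul_le_mul_of_nonneg_left (add_le_add_right s2 ((B : ℝ) / 6))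
    (Nat.cast_nonneg (α := ℝ) A)
  have g3 := mul_le_mul_of_nonneg_left (add_le_add_right s3 ((B : ℝ) / 6))
    (Nat.cast_nonneg (α := ℝ) A)
  have g4 := mul_le_mul_of_nonneg_left s1' (by positivity : (0 : ℝ) ≤ (A : ℝ) + B)
  have g5 : (A : ℝ) * A ≤ A * B := mul_le_mul_of_nonneg_left hB' (Nat.cast_nonneg _)
  have g6 : (9000000 : ℝ) * A ≤ A * B := by
    calc (9000000 : ℝ) * A ≤ B * A := mul_le_mul_of_nonneg_right (hA'.trans hB') (Nat.cast_nonneg _)
      _ = A * B := mul_comm _ _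
  linarith

open Classical in
/-- many good pairs with `a = 1` -/
lemma lo2_one (B : ℕ) (hB : 9000000 ≤ B) : (B : ℝ) / 2 ≤
    (((range 1 ×ˢ range B).filter fun t : ℕ × ℕ =>
      Squarefree (nn (1 + 900 * t.1, 1 + 900 * t.2)) ∧
        IsTri (1 + 900 * t.1, 1 + 900 * t.2)).card : ℝ) := by
  refine le_trans ?_ (lo2_box 1 B)
  have hB' : (9000000 : ℝ) ≤ B := by exact_mod_cast hB
  have s2 : Real.sqrt (900 * B : ℕ) ≤ B / 100 := by
    rw [Real.sqrt_le_left (by positivity)]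
    push_cast
    nlinarith
  have s3 : Real.sqrt (900 * (1 + B) : ℕ) ≤ B / 50 := by
    rw [Real.sqrt_le_left (by positivity)]
    push_cast
    nlinarith
  have z1 : ((range 1).filter fun i => ∃ p : ℕ, p.Prime ∧ 7 ≤ p ∧ p ^ 2 ∣ 1 + 900 * i) = ∅ := by
    rw [filter_eq_empty_iff]
    intro i hi h
    have h0 : i = 0 := by have := mem_range.1 hi; omega
    obtain ⟨p, -, h2, h3⟩ := h
    rw [h0] at h3
    have h4 := Nat.le_of_dvd (by norm_num) h3
    nlinarith
  have z4 : ((range 1 ×ˢ range B).filter fun t : ℕ × ℕ => ∃ p : ℕ, p.Prime ∧ 7 ≤ p ∧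
      p ∣ 1 + 900 * t.1 ∧ p ∣ 1 + 900 * t.2) = ∅ := by
    rw [filter_eq_empty_iff]
    intro t ht h
    have h0 : t.1 = 0 := by have := mem_range.1 (mem_product.1 ht).1; omega
    obtain ⟨p, -, h2, h3, -⟩ := h
    rw [h0] at h3
    have h4 := Nat.le_of_dvd (by norm_num) h3
    omega
  rw [z1, z4, card_empty, card_empty]
  push_cast at s2 s3 ⊢
  linarith

/-- squarefree lower bound -/
theorem lo2_thm : S_LO2 := by
  classical
  refine ⟨1 / (7200 * 16200001800), 16200001800 ^ 3, by norm_num, by norm_num, ?_⟩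
  intro X Y hX hY hYX
  have hX0 : 0 < X := lt_of_lt_of_le (by norm_num) hX
  have hY0 : 0 < Y := by linarith
  set W : ℝ := Real.sqrt (X / Y) with hW
  have hXY0 : 0 < X / Y := by positivity
  have hW0 : 0 < W := Real.sqrt_pos.2 hXY0
  have hW2 : W ^ 2 = X / Y := Real.sq_sqrt hXY0.le
  have hW2' : Y * W ^ 2 = X := by rw [hW2]; field_simp
  have hY3 : Y ^ 3 ≤ X := by
    calc Y ^ 3 ≤ (X ^ (1 / 3 : ℝ)) ^ 3 := pow_le_pow_left₀ hY0.le hYX 3
      _ = X := by
        rw [← Real.rpow_natCast, ← Real.rpow_mul hX0.le]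
        norm_num
  have hYW : Y ≤ W := by
    have h1 : Y ^ 2 ≤ W ^ 2 := by
      have : Y * Y ^ 2 ≤ Y * W ^ 2 := by
        rw [hW2']
        calc Y * Y ^ 2 = Y ^ 3 := by ring
          _ ≤ X := hY3
      exact le_of_mul_le_mul_left this hY0
    exact le_of_sq_le_sq h1 hW0.le
  have hWl : (16200001800 : ℝ) ≤ W := by
    by_contra hlt
    push Not at hlt
    have h1 : Y * W ^ 2 ≤ W ^ 3 := by
      calc Y * W ^ 2 ≤ W * W ^ 2 := mul_le_mul_of_nonneg_right hYW (sq_nonneg W)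
        _ = W ^ 3 := by ring
    have h2 : W ^ 3 < (16200001800 : ℝ) ^ 3 := pow_lt_pow_left₀ hlt hW0.le (by norm_num)
    rw [hW2'] at h1
    linarith
  have hsq : Real.sqrt (X * Y) = Y * W := by
    rw [← hW2', show Y * W ^ 2 * Y = (Y * W) ^ 2 by ring]
    exact Real.sqrt_sq (by positivity)
  rw [hsq]
  set B : ℕ := ⌊W / 1800⌋₊ with hB
  have hBW : (B : ℝ) ≤ W / 1800 := Nat.floor_le (by positivity)
  have hWB : W / 1800 < B + 1 := Nat.lt_floor_add_one _
  have hB9 : 9000000 ≤ B := Nat.le_floor (by push_cast; linarith)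
  have hB9' : (9000000 : ℝ) ≤ B := by exact_mod_cast hB9
  -- the conditions
  have hcond : ∀ a b : ℕ, 1 ≤ a → 1 ≤ b → (a : ℝ) ≤ Y → (b : ℝ) ≤ W / 2 → IsTri (a, b) →
      Squarefree (nn (a, b)) → IsTri (a, b) ∧ (RR (a, b) : ℝ) ≤ X ∧ (rad a : ℝ) ≤ Y ∧
        Squarefree (nn (a, b)) ∧ hh (a, b) ≤ Real.log X := by
    intro a b ha1 hb1 ha hb ht hs
    have ha0 : (1 : ℝ) ≤ a := by exact_mod_cast ha1
    have hb0 : (1 : ℝ) ≤ b := by exact_mod_cast hb1
    have hpos : 0 < nn (a, b) := by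
      show 0 < a * b * (a + b)
      positivity
    have hnn : ((nn (a, b) : ℕ) : ℝ) ≤ X := by
      show ((a * b * (a + b) : ℕ) : ℝ) ≤ X
      push_cast
      calc (a : ℝ) * b * (a + b) ≤ Y * (W / 2) * (W + W / 2) := by
            refine mul_le_mul (mul_le_mul ha hb (by linarith) hY0.le) (by linarith) (by linarith)
              (by positivity)
        _ = 3 / 4 * (Y * W ^ 2) := by ring
        _ ≤ X := by rw [hW2']; linarith
    have hrad : ∀ n : ℕ, 0 < n → rad n ≤ n := fun n hn =>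
      Nat.le_of_dvd hn (Nat.prod_primeFactors_dvd _)
    refine ⟨ht, ?_, ?_, hs, ?_⟩
    · refine le_trans ?_ hnn
      exact_mod_cast hrad _ hpos
    · refine le_trans ?_ ha
      exact_mod_cast hrad _ ha1
    · unfold hh
      refine Real.log_le_log (by push_cast; linarith) ?_
      refine le_trans ?_ hnn
      show ((a + b : ℕ) : ℝ) ≤ ((a * b * (a + b) : ℕ) : ℝ)
      have : 1 * (a + b) ≤ a * b * (a + b) := Nat.mul_le_mul_right _ (Nat.mul_pos ha1 hb1)
      exact_mod_cast (by omega : a + b ≤ a * b * (a + b))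
  have hinj : ∀ s : Finset (ℕ × ℕ), Set.InjOn (fun t : ℕ × ℕ =>
      ((1 + 900 * t.1, 1 + 900 * t.2) : ℕ × ℕ)) s := by
    intro s t _ t' _ h
    have h1 := congrArg Prod.fst h
    have h2 := congrArg Prod.snd h
    simp only at h1 h2
    ext <;> omega
  have hbB : ∀ j < B, (((1 + 900 * j : ℕ)) : ℝ) ≤ W / 2 := by
    intro j hj
    have h1 : ((1 + 900 * j : ℕ) : ℝ) ≤ 900 * B := by exact_mod_cast (by omega)
    linarith
  rcases lt_or_ge Y 16200001800 with hYs | hYl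
  · refine ⟨((range 1 ×ˢ range B).filter fun t : ℕ × ℕ =>
      Squarefree (nn (1 + 900 * t.1, 1 + 900 * t.2)) ∧
        IsTri (1 + 900 * t.1, 1 + 900 * t.2)).image
          (fun t : ℕ × ℕ => ((1 + 900 * t.1, 1 + 900 * t.2) : ℕ × ℕ)), ?_, ?_⟩
    · rw [card_image_of_injOn (hinj _)]
      refine le_trans ?_ (lo2_one B hB9)
      have h1 : Y * W ≤ 16200001800 * W := mul_le_mul_of_nonneg_right hYs.le hW0.le
      have h2 : 1 / (7200 * 16200001800) * (Y * W) ≤ 1 / (7200 * 16200001800) *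
          (16200001800 * W) := mul_le_mul_of_nonneg_left h1 (by norm_num)
      have h3 : (1 : ℝ) / (7200 * 16200001800) * (16200001800 * W) = W / 7200 := by ring
      linarith
    · intro v hv
      obtain ⟨t, ht, rfl⟩ := mem_image.1 hv
      obtain ⟨h1, h2, h3⟩ := mem_filter.1 ht
      obtain ⟨h4, h5⟩ := mem_product.1 h1
      have h6 : t.1 = 0 := by have := mem_range.1 h4; omega
      refine hcond _ _ (by omega) (by omega) ?_ (hbB _ (mem_range.1 h5)) h3 h2
      rw [h6]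
      push_cast
      linarith
  · set A : ℕ := ⌊Y / 1800⌋₊ with hA
    have hAY : (A : ℝ) ≤ Y / 1800 := Nat.floor_le (by positivity)
    have hYA : Y / 1800 < A + 1 := Nat.lt_floor_add_one _
    have hA9 : 9000000 ≤ A := Nat.le_floor (by push_cast; linarith)
    have hA9' : (9000000 : ℝ) ≤ A := by exact_mod_cast hA9
    have hAB : A ≤ B := Nat.floor_le_floor (by linarith)
    refine ⟨((range A ×ˢ range B).filter fun t : ℕ × ℕ =>
      Squarefree (nn (1 + 900 * t.1, 1 + 900 * t.2)) ∧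
        IsTri (1 + 900 * t.1, 1 + 900 * t.2)).image
          (fun t : ℕ × ℕ => ((1 + 900 * t.1, 1 + 900 * t.2) : ℕ × ℕ)), ?_, ?_⟩
    · rw [card_image_of_injOn (hinj _)]
      refine le_trans ?_ (lo2_large A B hA9 hAB)
      have h1 : Y * W ≤ (3600 * A) * (3600 * B) :=
        mul_le_mul (by linarith) (by linarith) hW0.le (by positivity)
      have h2 : (3600 * (A : ℝ)) * (3600 * B) = 12960000 * (A * B) := by ring
      have h3 : (0 : ℝ) ≤ Y * W := by positivity
      have h4 : 1 / (7200 * 16200001800) * (Y * W) ≤ 1 / (4 * 12960000) * (Y * W) :=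
        mul_le_mul_of_nonneg_right (by norm_num) h3
      have h5 : (1 : ℝ) / (4 * 12960000) * (Y * W) ≤ 1 / (4 * 12960000) * (12960000 * (A * B)) :=
        mul_le_mul_of_nonneg_left (by linarith) (by norm_num)
      have h6 : (1 : ℝ) / (4 * 12960000) * (12960000 * (A * B)) = A * B / 4 := by ring
      linarith
    · intro v hv
      obtain ⟨t, ht, rfl⟩ := mem_image.1 hv
      obtain ⟨h1, h2, h3⟩ := mem_filter.1 ht
      obtain ⟨h4, h5⟩ := mem_product.1 h1
      refine hcond _ _ (by omega) (by omega) ?_ (hbB _ (mem_range.1 h5)) h3 h2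
      have h6 := mem_range.1 h4
      have h7 : ((1 + 900 * t.1 : ℕ) : ℝ) ≤ 900 * A := by exact_mod_cast (by omega)
      linarith

end Pool.FEX
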