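import Pool.Agent.H10.FEX.Stmts

set_option autoImplicit false

namespace Pool.FEX

open Finset Pool.Agent.H98.ABCR Pool.SHA Pool.FEW

/-- union over the pairs `(e, M)`; small `X` -/
theorem ma2_thm (h1 : S_FAM) (h2 : S_ON2) (h3 : S_TOT) : S_MA2 := by
  classical
  intro ε hε
  obtain ⟨σ, c, hσ0, hσ1, hc, hone⟩ := h2 ε hε
  obtain ⟨A1, X1, hA1, hX1, hfam⟩ := h1 σ hσ0 hσ1
  obtain ⟨A2, X2, hA2, hX2, hone⟩ := hone A1 hA1
  obtain ⟨C3, hC3, htot⟩ := h3
  set X0 : ℝ := max X1 X2 with hX0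
  set C4 : ℝ := ∑ R ∈ range (⌊X0⌋₊ + 1), C3 ^ (om R + 1) with hC4
  have hC4' : 0 ≤ C4 := sum_nonneg fun R _ => by positivity
  refine ⟨A1 + A2, C4 + 1, c, by linarith, by linarith, hc, ?_⟩
  intro X H Y m k F hX hH hY hm hmc hF
  have hXH : 3 ≤ X * H := by nlinarith
  have hlog : 1 ≤ Real.log (X * H) := by
    rw [Real.le_log_iff_exp_le (by linarith)]
    have := Real.exp_one_lt_d9
    linarith
  have hXε : 1 ≤ X ^ ε := Real.one_le_rpow (by linarith) hε.le
  have hsq : 1 ≤ Real.sqrt (X * Y) := by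
    rw [Real.one_le_sqrt]
    nlinarith
  have hpow : 1 ≤ Real.log (X * H) ^ ((A1 + A2) * ((m : ℝ) + k)) :=
    Real.one_le_rpow hlog (by positivity)
  rcases lt_or_ge X X0 with hlt | hge
  · have hcov : F ⊆ (range (⌊X0⌋₊ + 1)).biUnion fun R => F.filter fun v => RR v = R := by
      intro v hv
      obtain ⟨-, a1, -⟩ := hF v hv
      rw [mem_biUnion]
      refine ⟨RR v, ?_, mem_filter.2 ⟨hv, rfl⟩⟩
      rw [mem_range, Nat.lt_succ_iff]
      exact Nat.le_floor (a1.trans hlt.le)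
    have hcard : (F.card : ℝ) ≤ C4 := by
      calc (F.card : ℝ) ≤ (((range (⌊X0⌋₊ + 1)).biUnion fun R =>
            F.filter fun v => RR v = R).card : ℝ) := by exact_mod_cast card_le_card hcov
        _ ≤ ∑ R ∈ range (⌊X0⌋₊ + 1), ((F.filter fun v => RR v = R).card : ℝ) := by
            exact_mod_cast card_biUnion_le
        _ ≤ C4 := by
            refine sum_le_sum fun R _ => ?_
            refine htot R _ ?_
            intro v hv
            obtain ⟨b1, b2⟩ := mem_filter.1 hv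
            exact ⟨(hF v b1).1, b2⟩
    calc (F.card : ℝ) ≤ C4 + 1 := by linarith
      _ = (C4 + 1) * 1 * 1 * 1 := by ring
      _ ≤ (C4 + 1) * X ^ ε * Real.sqrt (X * Y) *
          Real.log (X * H) ^ ((A1 + A2) * ((m : ℝ) + k)) := by
          gcongr
  · obtain ⟨y, Ms, hy1, hy2, hy3, hMs, hGM, hgd⟩ :=
      hfam X H ((le_max_left _ _).trans hge) hH
    set B : ℝ := X ^ ε * Real.sqrt (X * Y) * Real.log (X * H) ^ (A2 * ((m : ℝ) + k)) with hB
    have hB0 : 0 ≤ B := by positivity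
    have hcov : F ⊆ Ms.biUnion fun n => F.filter fun v => Gd y σ n.1 n.2 v := by
      intro v hv
      obtain ⟨a1, a2, -, -, a3⟩ := hF v hv
      obtain ⟨n, hn, hg⟩ := hgd v a1 a2 a3
      exact mem_biUnion.2 ⟨n, hn, mem_filter.2 ⟨hv, hg⟩⟩
    have hcard : (F.card : ℝ) ≤ Ms.card * B := by
      calc (F.card : ℝ) ≤ ((Ms.biUnion fun n => F.filter fun v => Gd y σ n.1 n.2 v).card : ℝ) := by
            exact_mod_cast card_le_card hcov
        _ ≤ ∑ n ∈ Ms, ((F.filter fun v => Gd y σ n.1 n.2 v).card : ℝ) := by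
            exact_mod_cast card_biUnion_le
        _ ≤ ∑ n ∈ Ms, B := by
            refine sum_le_sum fun n hn => ?_
            refine hone X H Y y m k n.1 n.2 _ ((le_max_right _ _).trans hge) hH hY hm hmc hy1 hy2 hy3
              (hGM n hn) ?_
            intro v hv
            obtain ⟨b1, b2⟩ := mem_filter.1 hv
            obtain ⟨a1, a2, a3, a4, -⟩ := hF v b1
            exact ⟨a1, a2, a3, a4, b2⟩
        _ = Ms.card * B := by rw [sum_const, nsmul_eq_mul]
    have hm1 : (1 : ℝ) ≤ m := by exact_mod_cast hm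
    have hk0 : (0 : ℝ) ≤ k := Nat.cast_nonneg k
    have hsplit : Real.log (X * H) ^ ((A1 + A2) * ((m : ℝ) + k)) =
        Real.log (X * H) ^ (A1 * ((m : ℝ) + k)) * Real.log (X * H) ^ (A2 * ((m : ℝ) + k)) := by
      rw [← Real.rpow_add (by linarith)]
      congr 1
      ring
    have hA1k : Real.log (X * H) ^ A1 ≤ Real.log (X * H) ^ (A1 * ((m : ℝ) + k)) := by
      refine Real.rpow_le_rpow_of_exponent_le hlog ?_
      nlinarith
    calc (F.card : ℝ) ≤ Ms.card * B := hcard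
      _ ≤ Real.log (X * H) ^ A1 * B := mul_le_mul_of_nonneg_right hMs hB0
      _ ≤ Real.log (X * H) ^ (A1 * ((m : ℝ) + k)) * B := mul_le_mul_of_nonneg_right hA1k hB0
      _ = 1 * (X ^ ε * Real.sqrt (X * Y) * Real.log (X * H) ^ ((A1 + A2) * ((m : ℝ) + k))) := by
          rw [hsplit, hB]; ring
      _ ≤ (C4 + 1) * (X ^ ε * Real.sqrt (X * Y) *
          Real.log (X * H) ^ ((A1 + A2) * ((m : ℝ) + k))) :=
          mul_le_mul_of_nonneg_right (by linarith) (by positivity)
      _ = (C4 + 1) * X ^ ε * Real.sqrt (X * Y) *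
          Real.log (X * H) ^ ((A1 + A2) * ((m : ℝ) + k)) := by
          ring

end Pool.FEX
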